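import Pool.Agent.MP_a88b1d_nt.H42.Spec

/-!
Row PM: polynomial matrices as vertices of the tree, and properness of `GL_2(A)`.
-/

open Polynomial

noncomputable section

namespace Pool.Agent.MP_a88b1d_nt.H94

open Pool.Agent.MP_a88b1d_nt.H42

variable {C : Type} [NontriviallyNormedField C] [Algebra (ZMod 2) C]

theorem evM_eq (T : C) (g : M2 A) :
    evM T g = (aeval T : A →ₐ[ZMod 2] C).toRingHom.mapMatrix g := rfl

theorem evM_apply (T : C) (g : M2 A) (i j : Fin 2) : evM T g i j = aeval T (g i j) := rfl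

theorem evM_mul (T : C) (g h : M2 A) : evM T (g * h) = evM T g * evM T h := by
  rw [evM_eq, evM_eq, evM_eq, map_mul]

theorem evM_one (T : C) : evM T 1 = 1 := by
  rw [evM_eq, map_one]

theorem evM_det (T : C) (g : M2 A) : (evM T g).det = aeval T g.det := by
  rw [evM_eq, ← RingHom.map_det]; rfl

theorem evM_adj (T : C) (g : M2 A) : (evM T g).adjugate = evM T g.adjugate := by
  rw [evM_eq, evM_eq, RingHom.map_adjugate]

theorem aeval_ne {T : C} (hT : 1 < ‖T‖) (h : H42.LT T) {f : A} (hf : f ≠ 0) :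
    aeval T f ≠ 0 := by
  intro h0
  have h1 := h.ev f hf
  rw [h0, norm_zero] at h1
  have : (0 : ℝ) < ‖T‖ ^ f.natDegree := pow_pos (by linarith) _
  linarith

theorem norm_aeval_le {T : C} (h : H42.LT T) (f : A) :
    ‖aeval T f‖ ≤ ‖T‖ ^ f.natDegree := by
  by_cases hf : f = 0
  · subst hf
    rw [map_zero, norm_zero]
    exact pow_nonneg (norm_nonneg _) _
  · exact (h.ev f hf).le

theorem evM_mem {T : C} (hT : 1 < ‖T‖) (h : H42.LT T) {g : M2 A} (hg : g.det ≠ 0) :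
    evM T g ∈ MK T :=
  ⟨fun i j => aeval_mem_Finf T (g i j), by rw [evM_det]; exact aeval_ne hT h hg⟩

theorem pm_val {T : C} (hT : 1 < ‖T‖) (h : H42.LT T) (g : M2 A) (hg : g.det ≠ 0) :
    (pm T g).1 = evM T g := by
  unfold pm
  rw [dif_pos (evM_mem hT h hg)]

omit [Algebra (ZMod 2) C] in
theorem le_nrm (x : M2 C) (i j : Fin 2) : ‖x i j‖ ≤ nrm x := by
  unfold nrm
  fin_cases i <;> fin_cases j <;> simp

omit [Algebra (ZMod 2) C] in
theorem nrm_nonneg (x : M2 C) : 0 ≤ nrm x := (norm_nonneg _).trans (le_nrm x 0 0)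

omit [Algebra (ZMod 2) C] in
theorem nrm_sq_le (x : M2 C) (B : ℝ) (hB : ∀ i j, ‖x i j‖ ^ 2 ≤ B) : nrm x ^ 2 ≤ B := by
  unfold nrm
  rcases max_cases (max ‖x 0 0‖ ‖x 0 1‖) (max ‖x 1 0‖ ‖x 1 1‖) with ⟨h1, _⟩ | ⟨h1, _⟩ <;>
    rw [h1]
  · rcases max_cases ‖x 0 0‖ ‖x 0 1‖ with ⟨h2, _⟩ | ⟨h2, _⟩ <;> rw [h2] <;> exact hB _ _
  · rcases max_cases ‖x 1 0‖ ‖x 1 1‖ with ⟨h2, _⟩ | ⟨h2, _⟩ <;> rw [h2] <;> exact hB _ _

theorem spec_pm {T : C} (hT : 1 < ‖T‖) (h : H42.LT T) (ht : TREE T) (g k : M2 A)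
    (hg : g.det ≠ 0) (hk : k.det ≠ 0) :
    ‖T‖ ^ (dd T (pm T g) (pm T k) + (g.det.natDegree + k.det.natDegree)) =
      nrm (evM T (g.adjugate * k)) ^ 2 := by
  have := ht.spec (pm T g) (pm T k)
  rw [pm_val hT h g hg, pm_val hT h k hk, evM_det, evM_det, h.ev _ hg, h.ev _ hk, evM_adj,
    ← evM_mul] at this
  rw [pow_add, pow_add, this]

theorem pm_zero {T : C} (hT : 1 < ‖T‖) (h : H42.LT T) (ht : TREE T) (g k : M2 A)
    (hg : g.det ≠ 0) (hk : k.det ≠ 0)
    (hd : ∀ i j, 2 * ((g.adjugate * k) i j).natDegree ≤ g.det.natDegree + k.det.natDegree) :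
    dd T (pm T g) (pm T k) = 0 := by
  have h1 := spec_pm hT h ht g k hg hk
  have h2 : nrm (evM T (g.adjugate * k)) ^ 2 ≤ ‖T‖ ^ (g.det.natDegree + k.det.natDegree) := by
    apply nrm_sq_le
    intro i j
    rw [evM_apply]
    calc ‖aeval T ((g.adjugate * k) i j)‖ ^ 2
        ≤ (‖T‖ ^ ((g.adjugate * k) i j).natDegree) ^ 2 :=
          pow_le_pow_left₀ (norm_nonneg _) (norm_aeval_le h _) 2
      _ = ‖T‖ ^ (2 * ((g.adjugate * k) i j).natDegree) := by rw [← pow_mul, mul_comm]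
      _ ≤ _ := pow_le_pow_right₀ hT.le (hd i j)
  rw [← h1] at h2
  have := (pow_le_pow_iff_right₀ hT).1 h2
  omega

theorem pm_low {T : C} (hT : 1 < ‖T‖) (h : H42.LT T) (ht : TREE T) (g k : M2 A) (i j : Fin 2)
    (n : ℕ) (hg : g.det ≠ 0) (hk : k.det ≠ 0) (hne : (g.adjugate * k) i j ≠ 0)
    (hd : g.det.natDegree + k.det.natDegree + n ≤ 2 * ((g.adjugate * k) i j).natDegree) :
    n ≤ dd T (pm T g) (pm T k) := by
  have h1 := spec_pm hT h ht g k hg hk
  have h2 : ‖T‖ ^ (2 * ((g.adjugate * k) i j).natDegree) ≤ nrm (evM T (g.adjugate * k)) ^ 2 := by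
    rw [mul_comm, pow_mul, ← h.ev _ hne, ← evM_apply]
    exact pow_le_pow_left₀ (norm_nonneg _) (le_nrm _ i j) 2
  rw [← h1] at h2
  have := (pow_le_pow_iff_right₀ hT).1 h2
  omega

theorem det_GL (g : GL (Fin 2) A) : g.1.det = 1 := by
  have hu : IsUnit g.1.det := (Matrix.isUnit_iff_isUnit_det _).1 g.isUnit
  obtain ⟨r, hr, hC⟩ := Polynomial.isUnit_iff.1 hu
  have h01 : ∀ r : ZMod 2, r ≠ 0 → r = 1 := by decide
  have : r = 1 := h01 r hr.ne_zero
  rw [← hC, this, map_one]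

theorem pm_one {T : C} (hT : 1 < ‖T‖) (h : H42.LT T) : pm T 1 = 1 := by
  apply Subtype.ext
  rw [pm_val hT h 1 (by simp), evM_one]
  rfl

theorem pm_rg {T : C} (hT : 1 < ‖T‖) (h : H42.LT T) (g : GL (Fin 2) A) : rG T g = pm T g.1 := by
  apply Subtype.ext
  rw [pm_val hT h _ (by rw [det_GL]; exact one_ne_zero), rG_val]

theorem finite_natDegree_le (R : ℕ) : {f : A | f.natDegree ≤ R}.Finite := by
  have h1 : Finite (Polynomial.degreeLT (ZMod 2) (R + 1)) :=
    Finite.of_equiv _ (Polynomial.degreeLTEquiv (ZMod 2) (R + 1)).toEquiv.symm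
  have h2 : ((Polynomial.degreeLT (ZMod 2) (R + 1) : Submodule (ZMod 2) A) : Set A).Finite :=
    Set.toFinite _
  refine h2.subset fun f hf => ?_
  simp only [SetLike.mem_coe, Polynomial.mem_degreeLT]
  calc f.degree ≤ (f.natDegree : WithBot ℕ) := degree_le_natDegree
    _ < ((R + 1 : ℕ) : WithBot ℕ) := by
      exact_mod_cast Nat.lt_succ_of_le hf

theorem properG {T : C} (hT : 1 < ‖T‖) (h : H42.LT T) (ht : TREE T) :
    Proper (dd T) (rG T) := by
  intro R
  have hfin : {x : M2 A | ∀ i j, x i j ∈ {f : A | f.natDegree ≤ R}}.Finite :=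
    Set.Finite.pi' fun i => Set.Finite.pi' fun j => finite_natDegree_le R
  refine (hfin.preimage (f := fun g : GL (Fin 2) A => g.1)
    (Units.val_injective.injOn)).subset fun g hg => ?_
  intro i j
  show (g.1 i j).natDegree ≤ R
  by_cases h0 : g.1 i j = 0
  · rw [h0]; simp
  · have h1 := pm_low hT h ht 1 g.1 i j (2 * (g.1 i j).natDegree) (by simp)
      (by rw [det_GL]; exact one_ne_zero) (by simpa using h0) (by simp [det_GL])
    rw [pm_one hT h, ← pm_rg hT h] at h1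
    have h2 : dd T 1 (rG T g) ≤ R := hg
    omega

theorem goodG {T : C} (hT : 1 < ‖T‖) (h : H42.LT T) (ht : TREE T) : Good (rG T) :=
  ⟨fun g => by rw [rG_val, evM_det, det_GL, map_one], properG hT h ht⟩

/-- Row PM. -/
theorem pm_api (T : C) (hT : 1 < ‖T‖) (h : H42.LT T) (ht : TREE T) : PM T where
  val := pm_val hT h
  mul := fun g k hg hk => by
    apply Subtype.ext
    rw [Submonoid.coe_mul, pm_val hT h _ hg, pm_val hT h _ hk,
      pm_val hT h _ (by rw [Matrix.det_mul]; exact mul_ne_zero hg hk), evM_mul]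
  one := pm_one hT h
  rg := pm_rg hT h
  zero := pm_zero hT h ht
  low := pm_low hT h ht
  goodG := goodG hT h ht
  good0 := fun m => ⟨fun g => (goodG hT h ht).1 g.1, fun R =>
    (properG hT h ht R).preimage (f := fun g : Gam0 m => g.1) Subtype.val_injective.injOn⟩

end Pool.Agent.MP_a88b1d_nt.H94
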